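import Mathlib
import Pool.Agent.Helper23.QMi

/-!
Back-and-forth along analytic discs for countable families of binary relations of finite order.
-/

set_option autoImplicit false

open Set Metric Filter Topology
open Pool.Agent.Helper23.QM

namespace QR

/-- linked points -/
def Lk (g : ℕ → ℂ × ℂ → ℂ) (x y : ℂ) : Prop :=
  ∃ i, (∃ z, g i (x, z) ≠ 0) ∧ (∃ z, g i (z, y) ≠ 0) ∧ g i (x, y) = 0

/-- an analytic disc in `ℂ^m` -/
structure Chart (m : ℕ) where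
  c : ℂ
  r : ℝ
  d : ℂ → (Fin m → ℂ)

/-- the domain of a disc -/
def Chart.B {m : ℕ} (C : Chart m) : Set ℂ := ball C.c C.r

/-- the disc is analytic -/
structure Chart.Ok {m : ℕ} (C : Chart m) : Prop where
  pos : 0 < C.r
  an : AnalyticOnNhd ℂ C.d (ball C.c C.r)

/-- `S` is generic on the disc -/
def gen {m : ℕ} (C : Chart m) (S : Set (Fin m → ℂ)) : Prop := {t | t ∈ C.B ∧ C.d t ∉ S}.Countable

theorem gen_mono {m : ℕ} {C : Chart m} {S T : Set (Fin m → ℂ)} (h : gen C S) (hST : S ⊆ T) :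
    gen C T := by
  refine Set.Countable.mono ?_ h
  rintro t ⟨h1, h2⟩
  exact ⟨h1, fun h3 => h2 (hST h3)⟩

theorem not_gen_both {m : ℕ} {C : Chart m} (hC : C.Ok) {S : Set (Fin m → ℂ)} (h : gen C S)
    (h' : gen C Sᶜ) : False := by
  apply ball_not_countable (x := C.c) hC.pos
  refine (h.union h').mono ?_
  intro t ht
  by_cases h1 : C.d t ∈ S
  · exact Or.inr ⟨ht, fun h2 => h2 h1⟩
  · exact Or.inl ⟨ht, h1⟩

theorem gen_or {m : ℕ} {C : Chart m} (hC : C.Ok) {S : Set (Fin m → ℂ)} (hS : DD S) :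
    gen C S ∨ gen C Sᶜ := by
  rcases hS C.d C.c C.r hC.an with h | h
  · right
    refine h.mono ?_
    rintro t ⟨ht, ht'⟩
    exact ⟨ht, not_not.mp ht'⟩
  · left
    exact h

/-- the points where membership is not the generic one -/
def bad {m : ℕ} (C : Chart m) (S : Set (Fin m → ℂ)) : Set ℂ :=
  {t | t ∈ C.B ∧ ¬ (C.d t ∈ S ↔ gen C S)}

theorem bad_countable {m : ℕ} {C : Chart m} (hC : C.Ok) {S : Set (Fin m → ℂ)} (hS : DD S) :
    (bad C S).Countable := by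
  by_cases h : gen C S
  · refine h.mono ?_
    rintro t ⟨ht, ht'⟩
    exact ⟨ht, fun h1 => ht' ⟨fun _ => h, fun _ => h1⟩⟩
  · have h2 := (gen_or hC hS).resolve_left h
    refine h2.mono ?_
    rintro t ⟨ht, ht'⟩
    refine ⟨ht, fun h1 => ht' ⟨fun h3 => absurd h3 h1, fun h3 => absurd h3 h⟩⟩

/-- discs with the same generic sets -/
def Sim {m : ℕ} (C C' : Chart m) : Prop := ∀ S : Set (Fin m → ℂ), DD S → (gen C S ↔ gen C' S)

theorem Sim.refl {m : ℕ} (C : Chart m) : Sim C C := fun _ _ => Iff.rfl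
theorem Sim.symm {m : ℕ} {C C' : Chart m} (h : Sim C C') : Sim C' C := fun S hS => (h S hS).symm
theorem Sim.trans {m : ℕ} {C C' C'' : Chart m} (h : Sim C C') (h' : Sim C' C'') : Sim C C'' :=
  fun S hS => (h S hS).trans (h' S hS)

/-- isolation of a class -/
theorem exists_isol {m : ℕ} (G : Set (Chart m)) (hG : G.Countable) (hok : ∀ C ∈ G, C.Ok)
    (C : Chart m) (hC : C ∈ G) : ∃ K : Set (Fin m → ℂ), DD K ∧ ∀ C' ∈ G, (gen C' K ↔ Sim C C') := by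
  classical
  have hsep : ∀ C' : G, ∃ S : Set (Fin m → ℂ), DD S ∧ gen C S ∧ (¬ Sim C C' → ¬ gen C'.1 S) := by
    rintro ⟨C', hC'⟩
    by_cases h : Sim C C'
    · refine ⟨univ, by simpa using DD.const (E := Fin m → ℂ) True, ?_, fun h' => absurd h h'⟩
      simp [gen]
    · rw [Sim] at h
      push Not at h
      obtain ⟨S, hS, h1⟩ := h
      rcases h1 with ⟨h2, h3⟩ | ⟨h2, h3⟩
      · exact ⟨S, hS, h2, fun _ => h3⟩
      · refine ⟨Sᶜ, hS.compl, (gen_or (hok C hC) hS).resolve_left h2, fun _ h4 => ?_⟩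
        exact not_gen_both (hok C' hC') h3 h4
  choose S hS1 hS2 hS3 using hsep
  have _ : Countable G := hG.to_subtype
  have hCK : gen C (⋂ C', S C') := by
    have h1 : {t | t ∈ C.B ∧ C.d t ∉ ⋂ C', S C'} = ⋃ C', {t | t ∈ C.B ∧ C.d t ∉ S C'} := by
      ext t
      simp only [mem_ofPred_eq, mem_iInter, not_forall, mem_iUnion]
      exact ⟨fun ⟨h1, x, h2⟩ => ⟨x, h1, h2⟩, fun ⟨x, h1, h2⟩ => ⟨h1, x, h2⟩⟩
    rw [gen, h1]
    exact countable_iUnion hS2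
  refine ⟨⋂ C', S C', DD.iInter hS1, fun C' hC' => ⟨fun h => ?_, fun h => ?_⟩⟩
  · by_contra hn
    exact hS3 ⟨C', hC'⟩ hn (gen_mono h (iInter_subset _ _))
  · exact (h _ (DD.iInter hS1)).mp hCK

section ext

variable {g : ℕ → ℂ × ℂ → ℂ} (hg : ∀ i, AnalyticOnNhd ℂ (g i) univ) (hfo : ∀ i, FiniteOrder (g i))

theorem analytic_coord {m : ℕ} (l : Fin m) : AnalyticOnNhd ℂ (fun a : Fin m → ℂ => a l) univ :=
  fun a _ => (ContinuousLinearMap.proj (R := ℂ) (φ := fun _ : Fin m => ℂ) l).analyticAt a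

theorem analytic_snoc (m : ℕ) : AnalyticOnNhd ℂ
    (fun p : (Fin m → ℂ) × ℂ => (Fin.snoc p.1 p.2 : Fin (m + 1) → ℂ)) univ := by
  intro p _
  rw [analyticAt_pi_iff]
  intro j
  refine Fin.lastCases ?_ (fun i => ?_) j
  · simp only [Fin.snoc_last]
    exact analyticAt_snd
  · simp only [Fin.snoc_castSucc]
    exact (analytic_coord i _ (mem_univ _)).comp analyticAt_fst

/-- the tuples with a linked extension in `K` -/
def PP (g : ℕ → ℂ × ℂ → ℂ) {m : ℕ} (K : Set (Fin (m + 1) → ℂ)) : Set (Fin m → ℂ) :=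
  {a | ∃ l c, Lk g (a l) c ∧ (Fin.snoc a c : Fin (m + 1) → ℂ) ∈ K}

include hg hfo in
theorem DD_PP {m : ℕ} {K : Set (Fin (m + 1) → ℂ)} (hK : DD K) : DD (PP g K) := by
  have h1 : PP g K = ⋃ (l : Fin m), ⋃ (i : ℕ), {a | (∃ z, g i (a l, z) ≠ 0) ∧
      ∃ c, g i (a l, c) = 0 ∧ (a, c) ∈ {p : (Fin m → ℂ) × ℂ | (∃ z, g i (z, p.2) ≠ 0)} ∩
        (fun p : (Fin m → ℂ) × ℂ => (Fin.snoc p.1 p.2 : Fin (m + 1) → ℂ)) ⁻¹' K} := by
    ext a
    simp only [PP, mem_ofPred_eq, mem_iUnion, mem_inter_iff, mem_preimage]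
    constructor
    · rintro ⟨l, c, ⟨i, h1, h2, h3⟩, h4⟩
      exact ⟨l, i, h1, c, h3, h2, h4⟩
    · rintro ⟨l, i, h1, c, h3, h2, h4⟩
      exact ⟨l, c, ⟨i, h1, h2, h3⟩, h4⟩
  rw [h1]
  refine DD.iUnion fun l => DD.iUnion fun i => ?_
  have hF : AnalyticOnNhd ℂ (fun p : (Fin m → ℂ) × ℂ => g i (p.1 l, p.2)) univ := by
    intro p _
    have h2 : AnalyticAt ℂ (fun p : (Fin m → ℂ) × ℂ => (p.1 l, p.2)) p :=
      ((analytic_coord l _ (mem_univ _)).comp analyticAt_fst).prod analyticAt_snd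
    exact AnalyticAt.comp (g := g i) (hg i _ (mem_univ _)) h2
  have hFO : FO (fun p : (Fin m → ℂ) × ℂ => g i (p.1 l, p.2)) := by
    intro a
    obtain ⟨δ, hδ, C, ρ, h⟩ := (hfo i).FO (a l)
    refine ⟨δ, hδ, C, ρ, fun x hx y => h (x l) ?_ y⟩
    rw [mem_ball] at hx ⊢
    exact lt_of_le_of_lt (dist_le_pi_dist x a l) hx
  have hS1 : DD {p : (Fin m → ℂ) × ℂ | ∃ z, g i (z, p.2) ≠ 0} := by
    have h2 : AnalyticOnNhd ℂ (fun q : ((Fin m → ℂ) × ℂ) × ℂ => g i (q.2, q.1.2)) univ := by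
      intro q _
      have h3 : AnalyticAt ℂ (fun q : ((Fin m → ℂ) × ℂ) × ℂ => (q.2, q.1.2)) q :=
        analyticAt_snd.prod (analyticAt_snd.comp analyticAt_fst)
      exact AnalyticAt.comp (g := g i) (hg i _ (mem_univ _)) h3
    exact DD.nonvertical h2
  exact DD.proj hF hFO (hS1.inter (hK.comp (analytic_snoc m)))

/-- local covering of the zero set by graphs -/
theorem cover {c : ℂ} {r : ℝ} {F : ℂ × ℂ → ℂ} (hF : AnalyticOnNhd ℂ F (ball c r ×ˢ univ))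
    (hne : ∃ x ∈ ball c r, ∃ y, F (x, y) ≠ 0) :
    ∃ (T : Set (ℂ × ℝ × (ℂ → ℂ))) (N : Set ℂ), T.Countable ∧ N.Countable ∧
      (∀ p ∈ T, 0 < p.2.1 ∧ ball p.1 p.2.1 ⊆ ball c r ∧ AnalyticOnNhd ℂ p.2.2 (ball p.1 p.2.1)) ∧
      ∀ t ∈ ball c r, t ∉ N → ∀ y, F (t, y) = 0 → ∃ p ∈ T, t ∈ ball p.1 p.2.1 ∧ p.2.2 t = y := by
  classical
  have hN := exc_countable isOpen_ball (convex_ball c r).isPreconnected hF hne
  let Z : Set (ℂ × ℂ) := {p | p.1 ∈ ball c r ∧ p.1 ∉ Exc (ball c r) F ∧ F p = 0}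
  have key : ∀ p : ℂ × ℂ, ∃ (h : ℂ → ℂ) (δ η : ℝ), p ∈ Z →
      IsChart (ball c r) F p.1 p.2 h δ η := by
    intro p
    by_cases hp : p ∈ Z
    · have h1 : Reg (ball c r) F p.1 p.2 := by
        by_contra hcon
        exact hp.2.1 ⟨hp.1, Or.inr ⟨p.2, hp.2.2, hcon⟩⟩
      obtain ⟨h, δ, η, h2⟩ := h1
      exact ⟨h, δ, η, fun _ => h2⟩
    · exact ⟨fun _ => 0, 0, 0, fun h => absurd h hp⟩
  choose h δ η hh using key
  obtain ⟨T, hT1, hT2, hT3⟩ := TopologicalSpace.countable_cover_nhdsWithin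
    (f := fun p : ℂ × ℂ => ball p.1 (δ p) ×ˢ ball p.2 (η p)) (s := Z) (fun p hp =>
      mem_nhdsWithin_of_mem_nhds (prod_mem_nhds (ball_mem_nhds _ (hh p hp).δpos)
        (ball_mem_nhds _ (hh p hp).ηpos)))
  refine ⟨(fun p : ℂ × ℂ => (p.1, δ p, h p)) '' T, Exc (ball c r) F, hT2.image _, hN, ?_, ?_⟩
  · rintro _ ⟨p, hp, rfl⟩
    have h1 := hh p (hT1 hp)
    exact ⟨h1.δpos, h1.sub, h1.an⟩
  · intro t ht htN y hy
    have h1 : (t, y) ∈ Z := ⟨ht, htN, hy⟩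
    obtain ⟨p, hp, h2⟩ := mem_iUnion₂.mp (hT3 h1)
    have h3 := hh p (hT1 hp)
    refine ⟨_, ⟨p, hp, rfl⟩, h2.1, ?_⟩
    exact ((h3.iff t h2.1 y h2.2).mp hy).symm

/-- a good family of discs -/
def GF {m : ℕ} (G : Set (Chart m)) : Prop := G.Countable ∧ ∀ C ∈ G, C.Ok

include hg in
/-- the next family -/
theorem exists_next {m : ℕ} (G : Set (Chart m)) (hG : GF G) :
    ∃ (G' : Set (Chart (m + 1))) (N : Set ℂ), GF G' ∧ N.Countable ∧
      ∀ C ∈ G, ∀ t ∈ C.B, t ∉ N → ∀ l c, Lk g (C.d t l) c →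
        ∃ C' ∈ G', t ∈ C'.B ∧ C'.d t = Fin.snoc (C.d t) c := by
  classical
  have key : ∀ (C : G) (l : Fin m) (i : ℕ), ∃ (T : Set (ℂ × ℝ × (ℂ → ℂ))) (N : Set ℂ),
      T.Countable ∧ N.Countable ∧
      (∀ p ∈ T, 0 < p.2.1 ∧ ball p.1 p.2.1 ⊆ ball C.1.c C.1.r ∧
        AnalyticOnNhd ℂ p.2.2 (ball p.1 p.2.1)) ∧
      ∀ t ∈ ball C.1.c C.1.r, t ∉ N → (∃ z, g i (C.1.d t l, z) ≠ 0) → ∀ y, g i (C.1.d t l, y) = 0 →
        ∃ p ∈ T, t ∈ ball p.1 p.2.1 ∧ p.2.2 t = y := by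
    intro C l i
    have hF : AnalyticOnNhd ℂ (fun p : ℂ × ℂ => g i (C.1.d p.1 l, p.2))
        (ball C.1.c C.1.r ×ˢ univ) := by
      rintro p ⟨hp, -⟩
      have h1 : AnalyticAt ℂ (fun t => C.1.d t l) p.1 :=
        (analytic_coord l _ (mem_univ _)).comp ((hG.2 C.1 C.2).an p.1 hp)
      have h2 : AnalyticAt ℂ (fun p : ℂ × ℂ => (C.1.d p.1 l, p.2)) p :=
        (AnalyticAt.comp (g := fun t => C.1.d t l) h1 analyticAt_fst).prod analyticAt_snd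
      exact AnalyticAt.comp (g := g i) (hg i _ (mem_univ _)) h2
    by_cases hne : ∃ x ∈ ball C.1.c C.1.r, ∃ y, g i (C.1.d x l, y) ≠ 0
    · obtain ⟨T, N, h1, h2, h3, h4⟩ := cover hF hne
      exact ⟨T, N, h1, h2, h3, fun t ht htN _ y hy => h4 t ht htN y hy⟩
    · refine ⟨∅, ∅, countable_empty, countable_empty, fun p hp => absurd hp (notMem_empty p), ?_⟩
      intro t ht _ hz
      exact absurd ⟨t, ht, hz⟩ hne
  choose T N hT hN h1 h2 using key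
  have _ : Countable G := hG.1.to_subtype
  let mk : (C : Chart m) → ℂ × ℝ × (ℂ → ℂ) → Chart (m + 1) := fun C p =>
    ⟨p.1, p.2.1, fun s => Fin.snoc (C.d s) (p.2.2 s)⟩
  refine ⟨⋃ (C : G) (l : Fin m) (i : ℕ), mk C.1 '' T C l i, ⋃ (C : G) (l : Fin m) (i : ℕ), N C l i,
    ⟨?_, ?_⟩, ?_, ?_⟩
  · exact countable_iUnion fun C => countable_iUnion fun l => countable_iUnion fun i =>
      (hT C l i).image _
  · intro C' hC'
    simp only [mem_iUnion] at hC'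
    obtain ⟨C, l, i, p, hp, rfl⟩ := hC'
    obtain ⟨h3, h4, h5⟩ := h1 C l i p hp
    refine ⟨h3, fun t ht => ?_⟩
    have h6 : AnalyticAt ℂ (fun s => (C.1.d s, p.2.2 s)) t :=
      ((hG.2 C.1 C.2).an t (h4 ht)).prod (h5 t ht)
    exact AnalyticAt.comp (g := fun p : (Fin m → ℂ) × ℂ => (Fin.snoc p.1 p.2 : Fin (m + 1) → ℂ))
      (analytic_snoc m _ (mem_univ _)) h6
  · exact countable_iUnion fun C => countable_iUnion fun l => countable_iUnion fun i => hN C l i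
  · rintro C hC t ht htN l c ⟨i, h3, h4, h5⟩
    have h6 : t ∉ N ⟨C, hC⟩ l i := by
      intro h
      apply htN
      simp only [mem_iUnion]
      exact ⟨⟨C, hC⟩, l, i, h⟩
    obtain ⟨p, hp, h7, h8⟩ := h2 ⟨C, hC⟩ l i t ht h6 h3 c h5
    refine ⟨mk C p, ?_, h7, ?_⟩
    · simp only [mem_iUnion]
      exact ⟨⟨C, hC⟩, l, i, p, hp, rfl⟩
    · change (Fin.snoc (C.d t) (p.2.2 t) : Fin (m + 1) → ℂ) = _
      rw [h8]

end ext

end QR
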