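import Mathlib

/-!
Sequences from a back-and-forth system of finite tuples.
-/

set_option autoImplicit false

namespace QR

/-- extension of a tuple -/
def sn {n k : ℕ} (a : Fin (n + k) → ℂ) (c : ℂ) : Fin (n + (k + 1)) → ℂ := Fin.snoc (α := fun _ => ℂ) a c

theorem sn_last {n k : ℕ} (a : Fin (n + k) → ℂ) (c : ℂ) (h : n + k < n + (k + 1)) :
    sn a c ⟨n + k, h⟩ = c := Fin.snoc_last (α := fun _ => ℂ) c a

theorem sn_old {n k : ℕ} (a : Fin (n + k) → ℂ) (c : ℂ) {m : ℕ} (h : m < n + k)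
    (h' : m < n + (k + 1)) : sn a c ⟨m, h'⟩ = a ⟨m, h⟩ :=
  Fin.snoc_castSucc (α := fun _ => ℂ) c a ⟨m, h⟩

theorem exists_seq {n : ℕ} (hn : 0 < n) (L : ℂ → ℂ → Prop) (hLc : ∀ x, {c | L x c}.Countable)
    (hLn : ∀ x, L x x) (R : ∀ k, (Fin (n + k) → ℂ) → (Fin (n + k) → ℂ) → Prop)
    (a0 a0' : Fin n → ℂ) (h0 : R 0 a0 a0')
    (hf : ∀ k a a', R k a a' → ∀ l c, L (a l) c → ∃ l' c', L (a' l') c' ∧ R (k + 1) (sn a c) (sn a' c'))
    (hb : ∀ k a a', R k a a' → ∀ l c, L (a' l) c → ∃ l' c', L (a l') c' ∧ R (k + 1) (sn a c') (sn a' c)) :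
    ∃ a a' : ℕ → ℂ, (∀ j : Fin n, a j = a0 j ∧ a' j = a0' j) ∧
      (∀ k, R k (fun j => a j) (fun j => a' j)) ∧
      (∀ j c, L (a j) c → ∃ m, a m = c) ∧ (∀ j c, L (a' j) c → ∃ m, a' m = c) ∧
      (∀ m, n ≤ m → ∃ l < m, L (a l) (a m)) ∧ (∀ m, n ≤ m → ∃ l < m, L (a' l) (a' m)) := by
  classical
  have henum : ∀ x, ∃ e : ℕ → ℂ, {c | L x c} = Set.range e := fun x =>
    (hLc x).exists_eq_range ⟨x, hLn x⟩
  choose e he using henum
  have heL : ∀ x q, L x (e x q) := fun x q => by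
    have : e x q ∈ {c | L x c} := he x ▸ Set.mem_range_self q
    exact this
  let St : ℕ → Type := fun k => {p : (Fin (n + k) → ℂ) × (Fin (n + k) → ℂ) // R k p.1 p.2}
  have hlt : ∀ k : ℕ, k.unpair.1.unpair.1 < n + k := by
    intro k
    have h1 := Nat.unpair_left_le k.unpair.1
    have h2 := Nat.unpair_left_le k
    omega
  have step : ∀ k (s : St k), ∃ s' : St (k + 1), ∃ c c', s'.1.1 = sn s.1.1 c ∧ s'.1.2 = sn s.1.2 c' ∧
      (∃ l, L (s.1.1 l) c) ∧ (∃ l, L (s.1.2 l) c') ∧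
      (k.unpair.2 = 0 → c = e (s.1.1 ⟨k.unpair.1.unpair.1, hlt k⟩) k.unpair.1.unpair.2) ∧
      (k.unpair.2 ≠ 0 → c' = e (s.1.2 ⟨k.unpair.1.unpair.1, hlt k⟩) k.unpair.1.unpair.2) := by
    intro k s
    by_cases hd : k.unpair.2 = 0
    · obtain ⟨l', c', h1, h2⟩ := hf k s.1.1 s.1.2 s.2 ⟨k.unpair.1.unpair.1, hlt k⟩ _
        (heL (s.1.1 ⟨k.unpair.1.unpair.1, hlt k⟩) k.unpair.1.unpair.2)
      exact ⟨⟨(_, _), h2⟩, _, _, rfl, rfl, ⟨_, heL _ _⟩, ⟨l', h1⟩, fun _ => rfl,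
        fun h => absurd hd h⟩
    · obtain ⟨l', c', h1, h2⟩ := hb k s.1.1 s.1.2 s.2 ⟨k.unpair.1.unpair.1, hlt k⟩ _
        (heL (s.1.2 ⟨k.unpair.1.unpair.1, hlt k⟩) k.unpair.1.unpair.2)
      exact ⟨⟨(_, _), h2⟩, _, _, rfl, rfl, ⟨l', h1⟩, ⟨_, heL _ _⟩, fun h => absurd h hd,
        fun _ => rfl⟩
  choose nx c c' hc hc' hl hl' hd hd' using step
  let st : ∀ k, St k := fun k => Nat.rec (motive := St) ⟨(a0, a0'), h0⟩ (fun k s => nx k s) k
  have hst : ∀ k, st (k + 1) = nx k (st k) := fun k => rfl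
  have stab : ∀ k m (h : m < n + k), (st (k + 1)).1.1 ⟨m, by omega⟩ = (st k).1.1 ⟨m, h⟩ ∧
      (st (k + 1)).1.2 ⟨m, by omega⟩ = (st k).1.2 ⟨m, h⟩ := by
    intro k m h
    rw [hst k, hc k (st k), hc' k (st k)]
    exact ⟨sn_old _ _ h _, sn_old _ _ h _⟩
  have stab' : ∀ d k m (h : m < n + k), (st (k + d)).1.1 ⟨m, by omega⟩ = (st k).1.1 ⟨m, h⟩ ∧
      (st (k + d)).1.2 ⟨m, by omega⟩ = (st k).1.2 ⟨m, h⟩ := by
    intro d
    induction d with
    | zero => intro k m h; exact ⟨rfl, rfl⟩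
    | succ d ih =>
      intro k m h
      have h1 := stab (k + d) m (by omega)
      have h2 := ih k m h
      exact ⟨h1.1.trans h2.1, h1.2.trans h2.2⟩
  let a : ℕ → ℂ := fun m => (st (m + 1)).1.1 ⟨m, by omega⟩
  let a' : ℕ → ℂ := fun m => (st (m + 1)).1.2 ⟨m, by omega⟩
  have ha : ∀ k m (h : m < n + k), (st k).1.1 ⟨m, h⟩ = a m ∧ (st k).1.2 ⟨m, h⟩ = a' m := by
    intro k m h
    have h1 := stab' (m + 1) k m h
    have h2 := stab' k (m + 1) m (by omega)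
    have h3 : k + (m + 1) = (m + 1) + k := by omega
    have h4 : ∀ (p q : ℕ) (hpq : p = q) (hp : m < n + p) (hq : m < n + q),
        (st p).1.1 ⟨m, hp⟩ = (st q).1.1 ⟨m, hq⟩ ∧ (st p).1.2 ⟨m, hp⟩ = (st q).1.2 ⟨m, hq⟩ := by
      rintro p q rfl hp hq
      exact ⟨rfl, rfl⟩
    have h5 := h4 _ _ h3 (by omega) (by omega)
    exact ⟨h1.1.symm.trans (h5.1.trans h2.1), h1.2.symm.trans (h5.2.trans h2.2)⟩
  have hnew : ∀ k, a (n + k) = c k (st k) ∧ a' (n + k) = c' k (st k) := by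
    intro k
    have h1 := ha (k + 1) (n + k) (by omega)
    rw [← h1.1, ← h1.2, hst k, hc k (st k), hc' k (st k)]
    exact ⟨sn_last _ _ _, sn_last _ _ _⟩
  refine ⟨a, a', fun j => ?_, fun k => ?_, fun j x hx => ?_, fun j x hx => ?_, fun m hm => ?_,
    fun m hm => ?_⟩
  · have := ha 0 j j.2
    exact ⟨this.1.symm, this.2.symm⟩
  · have h1 : (fun j : Fin (n + k) => a j) = (st k).1.1 := by
      funext j
      exact (ha k j j.2).1.symm
    have h2 : (fun j : Fin (n + k) => a' j) = (st k).1.2 := by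
      funext j
      exact (ha k j j.2).2.symm
    rw [h1, h2]
    exact (st k).2
  · have h1 : x ∈ Set.range (e (a j)) := he (a j) ▸ hx
    obtain ⟨q, hq⟩ := h1
    let k := Nat.pair (Nat.pair j q) 0
    have hu1 : k.unpair.1.unpair.1 = j := by simp [k]
    have hu2 : k.unpair.1.unpair.2 = q := by simp [k]
    have hu3 : k.unpair.2 = 0 := by simp [k]
    refine ⟨n + k, ?_⟩
    rw [(hnew k).1, hd k (st k) hu3, ← hq, hu2]
    congr 1
    have h2 := (ha k k.unpair.1.unpair.1 (hlt k)).1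
    rw [h2, hu1]
  · have h1 : x ∈ Set.range (e (a' j)) := he (a' j) ▸ hx
    obtain ⟨q, hq⟩ := h1
    let k := Nat.pair (Nat.pair j q) 1
    have hu1 : k.unpair.1.unpair.1 = j := by simp [k]
    have hu2 : k.unpair.1.unpair.2 = q := by simp [k]
    have hu3 : k.unpair.2 ≠ 0 := by simp [k]
    refine ⟨n + k, ?_⟩
    rw [(hnew k).2, hd' k (st k) hu3, ← hq, hu2]
    congr 1
    have h2 := (ha k k.unpair.1.unpair.1 (hlt k)).2
    rw [h2, hu1]
  · obtain ⟨k, rfl⟩ := Nat.exists_eq_add_of_le hm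
    obtain ⟨l, h1⟩ := hl k (st k)
    refine ⟨l, l.2, ?_⟩
    rw [(hnew k).1]
    have h2 := (ha k l l.2).1
    change (st k).1.1 l = a l at h2
    rw [← h2]
    exact h1
  · obtain ⟨k, rfl⟩ := Nat.exists_eq_add_of_le hm
    obtain ⟨l, h1⟩ := hl' k (st k)
    refine ⟨l, l.2, ?_⟩
    rw [(hnew k).2]
    have h2 := (ha k l l.2).2
    change (st k).1.2 l = a' l at h2
    rw [← h2]
    exact h1

end QR
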