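import Mathlib
import Pool.Agent.Helper16.QR.Base
import Pool.Agent.Helper16.QR.Seq

/-!
The back-and-forth system over an entire curve.
-/

set_option autoImplicit false

open Set Metric Filter Topology
open Pool.Agent.Helper23.QM

namespace QR

variable {g : ℕ → ℂ × ℂ → ℂ}

theorem main_bf (hg : ∀ i, AnalyticOnNhd ℂ (g i) univ) (hfo : ∀ i, FiniteOrder (g i)) {n : ℕ}
    (γ : ℂ → Fin n → ℂ) (hγ : AnalyticOnNhd ℂ γ univ) {ι : Type} [Countable ι] (w : ι → ℕ)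
    (G : ∀ i, (Fin (w i) → ℂ) → ℂ) (hG : ∀ i, AnalyticOnNhd ℂ (G i) univ) :
    ∃ N : Set ℂ, N.Countable ∧ ∃ R : ∀ k : ℕ, ℂ → ℂ → (Fin (n + k) → ℂ) → (Fin (n + k) → ℂ) → Prop,
      (∀ t t', R 0 t t' (γ t) (γ t')) ∧
      (∀ k t t' a a', R k t t' a a' → R k t' t a' a) ∧
      (∀ k t t', t ∉ N → t' ∉ N → ∀ a a', R k t t' a a' → ∀ l c, Lk g (a l) c →
        ∃ l' c', Lk g (a' l') c' ∧ R (k + 1) t t' (sn a c) (sn a' c')) ∧
      (∀ k t t', t ∉ N → t' ∉ N → ∀ a a', R k t t' a a' → ∀ i (v : Fin (w i) → Fin (n + k)),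
        (G i (a ∘ v) = 0 ↔ G i (a' ∘ v) = 0)) := by
  classical
  let F0 : Set (Chart n) := range (fun N : ℕ => ⟨0, (N : ℝ) + 1, γ⟩)
  have hF0 : GF F0 := by
    refine ⟨countable_range _, ?_⟩
    rintro _ ⟨N, rfl⟩
    refine ⟨?_, hγ.mono (subset_univ _)⟩
    change (0 : ℝ) < (N : ℝ) + 1
    positivity
  have hnext : ∀ k (X : {X : Set (Chart (n + k)) // GF X}),
      ∃ (X' : {X : Set (Chart (n + (k + 1))) // GF X}) (N : Set ℂ), N.Countable ∧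
        ∀ C ∈ X.1, ∀ t ∈ C.B, t ∉ N → ∀ l c, Lk g (C.d t l) c →
        ∃ C' ∈ X'.1, t ∈ C'.B ∧ C'.d t = sn (C.d t) c := by
    intro k X
    obtain ⟨G', N, h1, h2, h3⟩ := exists_next hg X.1 X.2
    exact ⟨⟨G', h1⟩, N, h2, h3⟩
  choose nx NN hNN hcov using hnext
  let fam : ∀ k, {X : Set (Chart (n + k)) // GF X} := fun k =>
    Nat.rec (motive := fun k => {X : Set (Chart (n + k)) // GF X}) ⟨F0, hF0⟩ (fun k X => nx k X) k
  have hfam : ∀ k, fam (k + 1) = nx k (fam k) := fun k => rfl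
  have hK : ∀ k (C : (fam k).1), ∃ K : Set (Fin (n + k) → ℂ), DD K ∧
      ∀ C' ∈ (fam k).1, (gen C' K ↔ Sim C.1 C') := fun k C =>
    exists_isol (fam k).1 (fam k).2.1 (fam k).2.2 C.1 C.2
  choose K hKD hKS using hK
  have hat : ∀ i m (v : Fin (w i) → Fin m), DD {a : Fin m → ℂ | G i (a ∘ v) = 0} := by
    intro i m v
    refine DD.zero (f := fun a : Fin m → ℂ => G i (a ∘ v)) ?_
    intro a _
    have h1 : AnalyticAt ℂ (fun a : Fin m → ℂ => a ∘ v) a := by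
      rw [analyticAt_pi_iff]
      intro j
      exact analytic_coord (v j) _ (mem_univ _)
    exact AnalyticAt.comp (g := G i) (hG i _ (mem_univ _)) h1
  have hcf : ∀ k, Countable (fam k).1 := fun k => (fam k).2.1.to_subtype
  let Nk : ℕ → Set ℂ := fun k => NN k (fam k) ∪
    ((⋃ (C : (fam k).1) (C' : (fam k).1), bad C.1 (K k C')) ∪
    ((⋃ (C : (fam k).1) (C' : (fam (k + 1)).1), bad C.1 (PP g (K (k + 1) C'))) ∪
    (⋃ (C : (fam k).1) (i : ι) (v : Fin (w i) → Fin (n + k)), bad C.1 {a | G i (a ∘ v) = 0})))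
  refine ⟨⋃ k, Nk k, ?_, fun k t t' a a' => ∃ C ∈ (fam k).1, ∃ C' ∈ (fam k).1, Sim C C' ∧ t ∈ C.B ∧
    C.d t = a ∧ t' ∈ C'.B ∧ C'.d t' = a', ?_, ?_, ?_, ?_⟩
  · refine countable_iUnion fun k => ?_
    refine (hNN k (fam k)).union (Countable.union ?_ (Countable.union ?_ ?_))
    · exact countable_iUnion fun C => countable_iUnion fun C' =>
        bad_countable ((fam k).2.2 C.1 C.2) (hKD k C')
    · exact countable_iUnion fun C => countable_iUnion fun C' =>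
        bad_countable ((fam k).2.2 C.1 C.2) (DD_PP hg hfo (hKD (k + 1) C'))
    · exact countable_iUnion fun C => countable_iUnion fun i => countable_iUnion fun v =>
        bad_countable ((fam k).2.2 C.1 C.2) (hat i (n + k) v)
  · intro t t'
    obtain ⟨M, hM⟩ := exists_nat_gt (max ‖t‖ ‖t'‖)
    have h1 : t ∈ ball (0 : ℂ) ((M : ℝ) + 1) := by
      rw [mem_ball_zero_iff]
      have := le_max_left ‖t‖ ‖t'‖
      linarith
    have h2 : t' ∈ ball (0 : ℂ) ((M : ℝ) + 1) := by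
      rw [mem_ball_zero_iff]
      have := le_max_right ‖t‖ ‖t'‖
      linarith
    exact ⟨⟨0, (M : ℝ) + 1, γ⟩, ⟨M, rfl⟩, ⟨0, (M : ℝ) + 1, γ⟩, ⟨M, rfl⟩, Sim.refl _, h1, rfl, h2, rfl⟩
  · rintro k t t' a a' ⟨C, hC, C', hC', hS, h1, h2, h3, h4⟩
    exact ⟨C', hC', C, hC, hS.symm, h3, h4, h1, h2⟩
  · rintro k t t' ht ht' a a' ⟨C, hC, C', hC', hS, h1, rfl, h3, rfl⟩ l c hl
    have hNk : ∀ k, t ∉ Nk k := fun k h => ht (mem_iUnion.mpr ⟨k, h⟩)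
    have hNk' : ∀ k, t' ∉ Nk k := fun k h => ht' (mem_iUnion.mpr ⟨k, h⟩)
    obtain ⟨C1, hC1, h5, h6⟩ := hcov k (fam k) C hC t h1 (fun h => hNk k (Or.inl h)) l c hl
    have hC1' : C1 ∈ (fam (k + 1)).1 := hC1
    -- the isolating set
    have hg1 : gen C1 (K (k + 1) ⟨C1, hC1'⟩) := (hKS (k + 1) ⟨C1, hC1'⟩ C1 hC1').mpr (Sim.refl _)
    have hb : ∀ (s : ℂ), s ∉ Nk (k + 1) → ∀ C2 ∈ (fam (k + 1)).1, s ∈ C2.B →
        (C2.d s ∈ K (k + 1) ⟨C1, hC1'⟩ ↔ gen C2 (K (k + 1) ⟨C1, hC1'⟩)) := by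
      intro s hs C2 hC2 hsB
      by_contra hcon
      apply hs
      refine Or.inr (Or.inl ?_)
      exact mem_iUnion₂.mpr ⟨⟨C2, hC2⟩, ⟨C1, hC1'⟩, hsB, hcon⟩
    have hbP : ∀ (s : ℂ), s ∉ Nk k → ∀ C2 ∈ (fam k).1, s ∈ C2.B →
        (C2.d s ∈ PP g (K (k + 1) ⟨C1, hC1'⟩) ↔ gen C2 (PP g (K (k + 1) ⟨C1, hC1'⟩))) := by
      intro s hs C2 hC2 hsB
      by_contra hcon
      apply hs
      refine Or.inr (Or.inr (Or.inl ?_))
      exact mem_iUnion₂.mpr ⟨⟨C2, hC2⟩, ⟨C1, hC1'⟩, hsB, hcon⟩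
    have h7 : C1.d t ∈ K (k + 1) ⟨C1, hC1'⟩ := (hb t (hNk _) C1 hC1' h5).mpr hg1
    have h8 : C.d t ∈ PP g (K (k + 1) ⟨C1, hC1'⟩) := by
      refine ⟨l, c, hl, ?_⟩
      have h9 := h6 ▸ h7
      exact h9
    have h9 : gen C (PP g (K (k + 1) ⟨C1, hC1'⟩)) := (hbP t (hNk k) C hC h1).mp h8
    have h10 : gen C' (PP g (K (k + 1) ⟨C1, hC1'⟩)) :=
      (hS _ (DD_PP hg hfo (hKD (k + 1) ⟨C1, hC1'⟩))).mp h9
    obtain ⟨l', c', hl', h11⟩ := (hbP t' (hNk' k) C' hC' h3).mpr h10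
    obtain ⟨C2, hC2, h12, h13⟩ := hcov k (fam k) C' hC' t' h3 (fun h => hNk' k (Or.inl h)) l' c' hl'
    have hC2' : C2 ∈ (fam (k + 1)).1 := hC2
    have h14 : C2.d t' ∈ K (k + 1) ⟨C1, hC1'⟩ := by
      rw [h13]
      exact h11
    have h15 : gen C2 (K (k + 1) ⟨C1, hC1'⟩) := (hb t' (hNk' _) C2 hC2' h12).mp h14
    have h16 : Sim C1 C2 := (hKS (k + 1) ⟨C1, hC1'⟩ C2 hC2').mp h15
    exact ⟨l', c', hl', C1, hC1', C2, hC2', h16, h5, h6, h12, h13⟩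
  · rintro k t t' ht ht' a a' ⟨C, hC, C', hC', hS, h1, rfl, h3, rfl⟩ i v
    have hb : ∀ (s : ℂ), s ∉ ⋃ k, Nk k → ∀ C2 ∈ (fam k).1, s ∈ C2.B →
        (C2.d s ∈ {a : Fin (n + k) → ℂ | G i (a ∘ v) = 0} ↔
          gen C2 {a : Fin (n + k) → ℂ | G i (a ∘ v) = 0}) := by
      intro s hs C2 hC2 hsB
      by_contra hcon
      apply hs
      refine mem_iUnion.mpr ⟨k, Or.inr (Or.inr (Or.inr ?_))⟩
      exact mem_iUnion.mpr ⟨⟨C2, hC2⟩, mem_iUnion₂.mpr ⟨i, v, hsB, hcon⟩⟩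
    have h5 := hb t ht C hC h1
    have h6 := hb t' ht' C' hC' h3
    have h7 := hS _ (hat i (n + k) v)
    exact h5.trans (h7.trans h6.symm)

end QR
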