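import Mathlib

/-!
The binary reduct: definitions.
-/

set_option autoImplicit false

namespace Pool.Agent.Helper16.QR

/-- `f : ℂ² → ℂ` has finite order of growth in each of its two variables, uniformly for bounded
values of the other variable. -/
def FiniteOrderEach (f : ℂ × ℂ → ℂ) : Prop :=
  (∀ r : ℝ, ∃ (C : ℝ) (ρ : ℕ), ∀ x y : ℂ, ‖x‖ ≤ r → ‖f (x, y)‖ ≤ Real.exp (C * (1 + ‖y‖) ^ ρ)) ∧
  (∀ r : ℝ, ∃ (C : ℝ) (ρ : ℕ), ∀ x y : ℂ, ‖y‖ ≤ r → ‖f (x, y)‖ ≤ Real.exp (C * (1 + ‖x‖) ^ ρ))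

/-- `x` and `y` satisfy one of the equations `f i (x, y) = 0`, in a non-degenerate way: neither
`f i (x, ·)` nor `f i (·, y)` vanishes identically. -/
def Linked (f : ℕ → ℂ × ℂ → ℂ) (x y : ℂ) : Prop :=
  ∃ i, f i (x, y) = 0 ∧ (∃ z, f i (x, z) ≠ 0) ∧ (∃ z, f i (z, y) ≠ 0)

/-- A tuple in which every entry but the first one is equal or linked (in one of the two orders)
to an earlier entry. -/
def LinkedTuple (f : ℕ → ℂ × ℂ → ℂ) {k : ℕ} (v : Fin k → ℂ) : Prop :=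
  ∀ j : Fin k, (j : ℕ) ≠ 0 → ∃ l < j, v l = v j ∨ Linked f (v l) (v j) ∨ Linked f (v j) (v l)

/-- The permutation `σ` of `ℂ` is an automorphism of the structure with universe `ℂ` and with the
following relations: the binary relations `f i (x, y) = 0` (for all pairs of complex numbers), and
the relations `G i v = 0` restricted to linked tuples `v` (here `w i` is the arity). -/
def IsAut (f : ℕ → ℂ × ℂ → ℂ) (w : ℕ → ℕ) (G : ∀ i, (Fin (w i) → ℂ) → ℂ)
    (σ : Equiv.Perm ℂ) : Prop :=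
  (∀ i x y, f i (x, y) = 0 ↔ f i (σ x, σ y) = 0) ∧
  (∀ i v, LinkedTuple f v → (G i v = 0 ↔ G i (fun j => σ (v j)) = 0))

end Pool.Agent.Helper16.QR
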