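import Mathlib
import Pool.Agent.Helper16.QR.BF

/-!
Automorphisms from isomorphic closures.
-/

set_option autoImplicit false

open Set Metric Filter Topology
open Pool.Agent.Helper23.QM

namespace QR

/-- a tuple in which every later entry is linked to an earlier one -/
def LT (g : ℕ → ℂ × ℂ → ℂ) {k : ℕ} (v : Fin k → ℂ) : Prop :=
  ∀ j : Fin k, (j : ℕ) ≠ 0 → ∃ l < j, Lk g (v l) (v j)

/-- the closure of a set under links -/
def Cl (g : ℕ → ℂ × ℂ → ℂ) (S : Set ℂ) : Set ℂ := {y | ∃ x ∈ S, Relation.ReflTransGen (Lk g) x y}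

theorem not_countable_C : ¬ (univ : Set ℂ).Countable := by
  intro h
  exact ball_not_countable (x := 0) one_pos (h.mono (subset_univ _))

section

variable {g : ℕ → ℂ × ℂ → ℂ} (hg : ∀ i, AnalyticOnNhd ℂ (g i) univ)
  (hsym : ∀ i, ∃ j, ∀ x y, g j (x, y) = g i (y, x))
  (hdiag : ∃ i, ∀ x y, g i (x, y) = x - y)

include hsym in
theorem Lk.symm {x y : ℂ} (h : Lk g x y) : Lk g y x := by
  obtain ⟨i, ⟨z, hz⟩, ⟨z', hz'⟩, h0⟩ := h
  obtain ⟨j, hj⟩ := hsym i
  exact ⟨j, ⟨z', by rwa [hj]⟩, ⟨z, by rwa [hj]⟩, by rwa [hj]⟩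

include hdiag in
theorem Lk.refl (x : ℂ) : Lk g x x := by
  obtain ⟨i, hi⟩ := hdiag
  exact ⟨i, ⟨x + 1, by rw [hi]; simp⟩, ⟨x + 1, by rw [hi]; simp⟩, by rw [hi]; simp⟩

include hg in
theorem Lk_countable (x : ℂ) : {c | Lk g x c}.Countable := by
  have h1 : {c | Lk g x c} ⊆ ⋃ i, {c | (∃ z, g i (x, z) ≠ 0) ∧ g i (x, c) = 0} := by
    rintro c ⟨i, h1, -, h2⟩
    exact mem_iUnion.mpr ⟨i, h1, h2⟩
  refine (countable_iUnion fun i => ?_).mono h1
  by_cases h : ∃ z, g i (x, z) ≠ 0
  · have hfan : AnalyticOnNhd ℂ (fun y => g i (x, y)) univ := by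
      intro y _
      have : AnalyticAt ℂ (fun y : ℂ => (x, y)) y := analyticAt_const.prod analyticAt_id
      exact AnalyticAt.comp (g := g i) (hg i _ (mem_univ _)) this
    obtain ⟨z, hz⟩ := h
    refine (countable_zeros hfan isPreconnected_univ ⟨z, mem_univ _, hz⟩).mono ?_
    rintro c ⟨-, hc⟩
    exact ⟨mem_univ _, hc⟩
  · refine countable_empty.mono ?_
    rintro c ⟨hc, -⟩
    exact absurd hc h

include hg in
theorem Cl_countable {S : Set ℂ} (hS : S.Countable) : (Cl g S).Countable := by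
  let X : ℕ → Set ℂ := fun n => Nat.rec S (fun _ T => ⋃ x ∈ T, {c | Lk g x c}) n
  have hX : ∀ n, (X n).Countable := by
    intro n
    induction n with
    | zero => exact hS
    | succ n ih => exact ih.biUnion (fun x _ => Lk_countable hg x)
  refine (countable_iUnion hX).mono ?_
  rintro y ⟨x, hx, hxy⟩
  induction hxy with
  | refl => exact mem_iUnion.mpr ⟨0, hx⟩
  | tail _ hbc ih =>
    obtain ⟨n, hn⟩ := mem_iUnion.mp ih
    exact mem_iUnion.mpr ⟨n + 1, mem_iUnion₂.mpr ⟨_, hn, hbc⟩⟩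

theorem Cl_step {S : Set ℂ} {x y : ℂ} (hx : x ∈ Cl g S) (h : Lk g x y) : y ∈ Cl g S := by
  obtain ⟨z, hz, hzx⟩ := hx
  exact ⟨z, hz, hzx.tail h⟩

theorem subset_Cl {S : Set ℂ} : S ⊆ Cl g S := fun x hx => ⟨x, hx, Relation.ReflTransGen.refl⟩

include hsym in
/-- disjoint closures -/
theorem Cl_disjoint {S T : Set ℂ} (h : ∀ x ∈ T, x ∉ Cl g S) {y : ℂ} (hy : y ∈ Cl g S) :
    y ∉ Cl g T := by
  rintro ⟨x, hx, hxy⟩
  apply h x hx
  clear hx
  induction hxy using Relation.ReflTransGen.head_induction_on with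
  | refl => exact hy
  | head hab _ ih => exact Cl_step ih (Lk.symm hsym hab)

/-- points over which some relation is vertical -/
def Vt (g : ℕ → ℂ × ℂ → ℂ) : Set ℂ := {x | ∃ i, (∃ p, g i p ≠ 0) ∧ ∀ y, g i (x, y) = 0}

include hg in
theorem Vt_countable : (Vt g).Countable := by
  have h1 : Vt g ⊆ ⋃ i, {x | (∃ p, g i p ≠ 0) ∧ ∀ y, g i (x, y) = 0} := by
    rintro x ⟨i, h1, h2⟩
    exact mem_iUnion.mpr ⟨i, h1, h2⟩
  refine (countable_iUnion fun i => ?_).mono h1
  by_cases h : ∃ p, g i p ≠ 0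
  · obtain ⟨⟨x, y⟩, hp⟩ := h
    refine (vertical_countable (U₀ := univ) isPreconnected_univ
      (by rw [univ_prod_univ]; exact hg i) ⟨x, mem_univ _, y, hp⟩).mono ?_
    rintro z ⟨-, hz⟩
    exact ⟨mem_univ _, hz⟩
  · refine countable_empty.mono ?_
    rintro c ⟨hc, -⟩
    exact absurd hc h

/-- the system is preserved -/
def Pres (g : ℕ → ℂ × ℂ → ℂ) {ι : Type} (w : ι → ℕ) (G : ∀ i, (Fin (w i) → ℂ) → ℂ)
    (σ : Equiv.Perm ℂ) : Prop :=
  (∀ i x y, (g i (x, y) = 0 ↔ g i (σ x, σ y) = 0)) ∧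
  (∀ i (v : Fin (w i) → ℂ), LT g v → (G i v = 0 ↔ G i (fun j => σ (v j)) = 0))

include hsym hdiag in
/-- swapping two isomorphic disjoint closed sets -/
theorem exists_swap {B0 : Set ℂ} (hV : Vt g ⊆ B0) {ι : Type} (w : ι → ℕ)
    (G : ∀ i, (Fin (w i) → ℂ) → ℂ) (a a' : ℕ → ℂ)
    (h1 : ∀ j c, Lk g (a j) c → ∃ m, a m = c) (h1' : ∀ j c, Lk g (a' j) c → ∃ m, a' m = c)
    (h2 : ∀ i j l, (g i (a j, a l) = 0 ↔ g i (a' j, a' l) = 0))
    (h3 : ∀ i (v : Fin (w i) → ℕ), (G i (fun j => a (v j)) = 0 ↔ G i (fun j => a' (v j)) = 0))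
    (h4 : ∀ m l, a m ≠ a' l) (h5 : ∀ m, a m ∉ B0) (h5' : ∀ m, a' m ∉ B0) :
    ∃ σ : Equiv.Perm ℂ, Pres g w G σ ∧ (∀ z ∈ B0, σ z = z) ∧ ∀ m, σ (a m) = a' m := by
  classical
  have heq : ∀ m l, (a m = a l ↔ a' m = a' l) := by
    intro m l
    obtain ⟨i, hi⟩ := hdiag
    have := h2 i m l
    rwa [hi, hi, sub_eq_zero, sub_eq_zero] at this
  let τ : ℂ → ℂ := fun z => if h : ∃ m, a m = z then a' h.choose else
    if h' : ∃ m, a' m = z then a h'.choose else z
  have t1 : ∀ m, τ (a m) = a' m := by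
    intro m
    have h : ∃ l, a l = a m := ⟨m, rfl⟩
    change (if h : ∃ l, a l = a m then a' h.choose else _) = a' m
    rw [dif_pos h]
    exact (heq _ _).mp h.choose_spec
  have t2 : ∀ m, τ (a' m) = a m := by
    intro m
    have h : ¬ ∃ l, a l = a' m := fun ⟨l, hl⟩ => h4 l m hl
    have h' : ∃ l, a' l = a' m := ⟨m, rfl⟩
    change (if h : ∃ l, a l = a' m then a' h.choose else
      if h' : ∃ l, a' l = a' m then a h'.choose else _) = a m
    rw [dif_neg h, dif_pos h']
    exact (heq _ _).mpr h'.choose_spec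
  have t3 : ∀ z, (¬ ∃ m, a m = z) → (¬ ∃ m, a' m = z) → τ z = z := by
    intro z hz hz'
    change (if h : ∃ l, a l = z then a' h.choose else
      if h' : ∃ l, a' l = z then a h'.choose else _) = z
    rw [dif_neg hz, dif_neg hz']
  have hinv : Function.Involutive τ := by
    intro z
    by_cases h : ∃ m, a m = z
    · obtain ⟨m, rfl⟩ := h
      rw [t1, t2]
    · by_cases h' : ∃ m, a' m = z
      · obtain ⟨m, rfl⟩ := h'
        rw [t2, t1]
      · rw [t3 z h h', t3 z h h']
  have tB : ∀ z ∈ B0, τ z = z := by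
    intro z hz
    exact t3 z (fun ⟨m, hm⟩ => h5 m (hm ▸ hz)) (fun ⟨m, hm⟩ => h5' m (hm ▸ hz))
  -- vertical points
  have hv1 : ∀ i x y, (∃ p, g i p ≠ 0) → x ∉ B0 → g i (x, y) = 0 → (¬ Lk g x y) →
      ∀ z, g i (z, y) = 0 := by
    intro i x y hp hx h0 hL
    by_contra hcon
    push Not at hcon
    apply hL
    refine ⟨i, ?_, hcon, h0⟩
    by_contra h6
    push Not at h6
    exact hx (hV ⟨i, hp, h6⟩)
  have hv2 : ∀ i x y, (∃ p, g i p ≠ 0) → y ∉ B0 → g i (x, y) = 0 → (¬ Lk g x y) →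
      ∀ z, g i (x, z) = 0 := by
    intro i x y hp hy h0 hL
    by_contra hcon
    push Not at hcon
    apply hL
    refine ⟨i, hcon, ?_, h0⟩
    by_contra h6
    push Not at h6
    obtain ⟨j, hj⟩ := hsym i
    obtain ⟨⟨p, q⟩, hpq⟩ := hp
    exact hy (hV ⟨j, ⟨(q, p), by rwa [hj]⟩, fun z => by rw [hj]; exact h6 z⟩)
  have hvB : ∀ i y, (∃ p, g i p ≠ 0) → (∀ z, g i (z, y) = 0) → y ∈ B0 := by
    intro i y hp hz
    obtain ⟨j, hj⟩ := hsym i
    obtain ⟨⟨p, q⟩, hpq⟩ := hp
    exact hV ⟨j, ⟨(q, p), by rwa [hj]⟩, fun z => by rw [hj]; exact hz z⟩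
  have key : ∀ i x y, g i (x, y) = 0 → g i (τ x, τ y) = 0 := by
    intro i x y h0
    by_cases hp : ∃ p, g i p ≠ 0
    · by_cases hx : ∃ m, a m = x
      · obtain ⟨m, rfl⟩ := hx
        by_cases hy : ∃ l, a l = y
        · obtain ⟨l, rfl⟩ := hy
          rw [t1, t1]
          exact (h2 i m l).mp h0
        · have hz := hv1 i (a m) y hp (h5 m) h0 (fun hL => hy (h1 m y hL))
          rw [tB y (hvB i y hp hz)]
          exact hz _
      · by_cases hx' : ∃ m, a' m = x
        · obtain ⟨m, rfl⟩ := hx'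
          by_cases hy : ∃ l, a' l = y
          · obtain ⟨l, rfl⟩ := hy
            rw [t2, t2]
            exact (h2 i m l).mpr h0
          · have hz := hv1 i (a' m) y hp (h5' m) h0 (fun hL => hy (h1' m y hL))
            rw [tB y (hvB i y hp hz)]
            exact hz _
        · rw [t3 x hx hx']
          by_cases hy : ∃ l, a l = y
          · obtain ⟨l, rfl⟩ := hy
            exact hv2 i x (a l) hp (h5 l) h0
              (fun hL => hx (h1 l x (Lk.symm hsym hL))) _
          · by_cases hy' : ∃ l, a' l = y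
            · obtain ⟨l, rfl⟩ := hy'
              exact hv2 i x (a' l) hp (h5' l) h0
                (fun hL => hx' (h1' l x (Lk.symm hsym hL))) _
            · rw [t3 y hy hy']
              exact h0
    · push Not at hp
      exact hp _
  refine ⟨hinv.toPerm, ⟨fun i x y => ⟨key i x y, fun h => ?_⟩, fun i v hv => ?_⟩, tB, t1⟩
  · have h6 := key i _ _ h
    change g i (τ (τ x), τ (τ y)) = 0 at h6
    rwa [hinv x, hinv y] at h6
  · change G i v = 0 ↔ G i (fun j => τ (v j)) = 0
    by_cases hA : ∀ j, ∃ m, a m = v j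
    · choose u hu using hA
      have e1 : v = fun j => a (u j) := funext fun j => (hu j).symm
      have e2 : (fun j => τ (v j)) = fun j => a' (u j) := funext fun j => by rw [← hu j, t1]
      rw [e2]
      conv_lhs => rw [e1]
      exact h3 i u
    · by_cases hA' : ∀ j, ∃ m, a' m = v j
      · choose u hu using hA'
        have e1 : v = fun j => a' (u j) := funext fun j => (hu j).symm
        have e2 : (fun j => τ (v j)) = fun j => a (u j) := funext fun j => by rw [← hu j, t2]
        rw [e2]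
        conv_lhs => rw [e1]
        exact (h3 i u).symm
      · -- nobody is in the two sets
        have hup : ∀ (b : ℕ → ℂ), (∀ j c, Lk g (b j) c → ∃ m, b m = c) →
            (∃ j, ∃ m, b m = v j) → ∀ j, ∃ m, b m = v j := by
          intro b hb hj
          have hroot : ∀ n : ℕ, ∀ j : Fin (w i), (j : ℕ) = n → (∃ m, b m = v j) →
              ∀ z : Fin (w i), (z : ℕ) = 0 → ∃ m, b m = v z := by
            intro n
            induction n using Nat.strong_induction_on with
            | _ n ih =>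
              intro j hjn hjm z hz
              by_cases hj0 : (j : ℕ) = 0
              · have : j = z := Fin.ext (hj0.trans hz.symm)
                rw [← this]
                exact hjm
              · obtain ⟨l, hl, hL⟩ := hv j hj0
                obtain ⟨m, hm⟩ := hjm
                have hL' := Lk.symm hsym hL
                rw [← hm] at hL'
                exact ih l (by rw [← hjn]; exact hl) l rfl (hb m _ hL') z hz
          obtain ⟨j0, hj0⟩ := hj
          have hpos : 0 < w i := lt_of_le_of_lt (Nat.zero_le _) j0.2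
          have h0 := hroot _ j0 rfl hj0 ⟨0, hpos⟩ rfl
          intro j
          have hdown : ∀ n : ℕ, ∀ j : Fin (w i), (j : ℕ) = n → ∃ m, b m = v j := by
            intro n
            induction n using Nat.strong_induction_on with
            | _ n ih =>
              intro j hjn
              by_cases hj0 : (j : ℕ) = 0
              · have : j = ⟨0, hpos⟩ := Fin.ext hj0
                rw [this]
                exact h0
              · obtain ⟨l, hl, hL⟩ := hv j hj0
                obtain ⟨m, hm⟩ := ih l (by rw [← hjn]; exact hl) l rfl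
                rw [← hm] at hL
                exact hb m _ hL
          exact hdown _ j rfl
        have e : (fun j => τ (v j)) = v := funext fun j => t3 (v j)
          (fun h => hA (hup a h1 ⟨j, h⟩)) (fun h => hA' (hup a' h1' ⟨j, h⟩))
        rw [e]

end

end QR
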