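import Mathlib
import Pool.Agent.Helper16.QR.Glue

/-!
Generic points of an entire curve lie in one orbit.
-/

set_option autoImplicit false

open Set Metric Filter Topology
open Pool.Agent.Helper23.QM

namespace QR

section

variable {g : ℕ → ℂ × ℂ → ℂ} (hg : ∀ i, AnalyticOnNhd ℂ (g i) univ) (hfo : ∀ i, FiniteOrder (g i))
  (hsym : ∀ i, ∃ j, ∀ x y, g j (x, y) = g i (y, x))
  (hdiag : ∃ i, ∀ x y, g i (x, y) = x - y)

theorem Pres.trans {ι : Type} {w : ι → ℕ} {G : ∀ i, (Fin (w i) → ℂ) → ℂ} {σ τ : Equiv.Perm ℂ}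
    (h : Pres g w G σ) (h' : Pres g w G τ) : Pres g w G (σ.trans τ) := by
  refine ⟨fun i x y => (h.1 i x y).trans (h'.1 i _ _), fun i v hv => (h.2 i v hv).trans
    (h'.2 i _ ?_)⟩
  intro j hj
  obtain ⟨l, hl, m, ⟨z, hz⟩, ⟨z', hz'⟩, h0⟩ := hv j hj
  exact ⟨l, hl, m, ⟨σ z, fun h1 => hz ((h.1 m _ _).mpr h1)⟩,
    ⟨σ z', fun h1 => hz' ((h.1 m _ _).mpr h1)⟩, (h.1 m _ _).mp h0⟩

/-- the combined family of relations -/
def cw {ι : Type} (w : ι → ℕ) : ℕ ⊕ ι → ℕ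
  | Sum.inl _ => 2
  | Sum.inr i => w i

/-- the combined family of relations -/
def cG (g : ℕ → ℂ × ℂ → ℂ) {ι : Type} (w : ι → ℕ) (G : ∀ i, (Fin (w i) → ℂ) → ℂ) :
    ∀ i, (Fin (cw w i) → ℂ) → ℂ
  | Sum.inl i => fun v => g i (v (0 : Fin 2), v (1 : Fin 2))
  | Sum.inr i => G i

include hg hfo hsym hdiag in
theorem core {n : ℕ} (hn : 0 < n) (γ : ℂ → Fin n → ℂ) (hγ : AnalyticOnNhd ℂ γ univ)
    (hnc : ∀ j, ∃ t, γ t j ≠ γ 0 j) {A : Set ℂ} (hA : A.Countable) {ι : Type} [Countable ι]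
    (w : ι → ℕ) (G : ∀ i, (Fin (w i) → ℂ) → ℂ) (hG : ∀ i, AnalyticOnNhd ℂ (G i) univ) :
    ∃ N : Set ℂ, N.Countable ∧ ∀ t t', t ∉ N → t' ∉ N → ∃ σ : Equiv.Perm ℂ, Pres g w G σ ∧
      (∀ z ∈ A, σ z = z) ∧ ∀ j, σ (γ t j) = γ t' j := by
  classical
  have hcG : ∀ i, AnalyticOnNhd ℂ (cG g w G i) univ := by
    rintro (i | i)
    · intro v _
      have h1 : AnalyticAt ℂ (fun v : Fin 2 → ℂ => (v 0, v 1)) v :=
        (analytic_coord 0 _ (mem_univ _)).prod (analytic_coord 1 _ (mem_univ _))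
      exact AnalyticAt.comp (g := g i) (hg i _ (mem_univ _)) h1
    · exact hG i
  obtain ⟨N, hN, R, r0, r1, r2, r3⟩ := main_bf hg hfo γ hγ (cw w) (cG g w G) hcG
  have hB0 : (Cl g (A ∪ Vt g)).Countable := Cl_countable hg (hA.union (Vt_countable hg))
  have hpre : ∀ (T : Set ℂ), T.Countable → {t | ∃ j, γ t j ∈ T}.Countable := by
    intro T hT
    have h1 : {t | ∃ j, γ t j ∈ T} = ⋃ j, ⋃ b ∈ T, {t | t ∈ (univ : Set ℂ) ∧ γ t j - b = 0} := by
      ext t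
      simp only [mem_ofPred_eq, mem_iUnion, mem_univ, true_and, sub_eq_zero]
      constructor
      · rintro ⟨j, hj⟩
        exact ⟨j, _, hj, rfl⟩
      · rintro ⟨j, b, hb, h⟩
        exact ⟨j, h ▸ hb⟩
    rw [h1]
    refine countable_iUnion fun j => hT.biUnion fun b _ => ?_
    have h2 : AnalyticOnNhd ℂ (fun t => γ t j - b) univ := fun t _ =>
      ((analytic_coord j _ (mem_univ _)).comp (hγ t (mem_univ _))).sub analyticAt_const
    refine countable_zeros h2 isPreconnected_univ ?_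
    by_cases h3 : γ 0 j = b
    · obtain ⟨t, ht⟩ := hnc j
      exact ⟨t, mem_univ _, fun h4 => ht ((sub_eq_zero.mp h4).trans h3.symm)⟩
    · exact ⟨0, mem_univ _, sub_ne_zero.mpr h3⟩
  -- the disjoint case
  have hdis : ∀ t t', t ∉ N ∪ {t | ∃ j, γ t j ∈ Cl g (A ∪ Vt g)} →
      t' ∉ N ∪ {t | ∃ j, γ t j ∈ Cl g (A ∪ Vt g)} → (∀ j, γ t' j ∉ Cl g (range (γ t))) →
      ∃ σ : Equiv.Perm ℂ, Pres g w G σ ∧ (∀ z ∈ A, σ z = z) ∧ ∀ j, σ (γ t j) = γ t' j := by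
    intro t t' ht ht' hd
    have htN : t ∉ N := fun h => ht (Or.inl h)
    have htN' : t' ∉ N := fun h => ht' (Or.inl h)
    obtain ⟨a, a', s0, s1, s2, s3, s4, s5⟩ := exists_seq hn (Lk g) (Lk_countable hg)
      (Lk.refl hdiag) (fun k => R k t t') (γ t) (γ t') (r0 t t')
      (fun k a a' h l c hl => r2 k t t' htN htN' a a' h l c hl)
      (fun k a a' h l c hl => by
        obtain ⟨l', c', h1, h2⟩ := r2 k t' t htN' htN a' a (r1 k t t' a a' h) l c hl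
        exact ⟨l', c', h1, r1 _ _ _ _ _ h2⟩)
    have hcl : ∀ (b : ℕ → ℂ) (v : Fin n → ℂ), (∀ j : Fin n, b j = v j) →
        (∀ m, n ≤ m → ∃ l < m, Lk g (b l) (b m)) → ∀ m, b m ∈ Cl g (range v) := by
      intro b v hb hl m
      induction m using Nat.strong_induction_on with
      | _ m ih =>
        by_cases hm : m < n
        · have h1 : b m = v ⟨m, hm⟩ := hb ⟨m, hm⟩
          rw [h1]
          exact subset_Cl ⟨_, rfl⟩
        · obtain ⟨l, hlm, hL⟩ := hl m (by omega)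
          exact Cl_step (ih l hlm) hL
    have ca := hcl a (γ t) (fun j => (s0 j).1) s4
    have ca' := hcl a' (γ t') (fun j => (s0 j).2) s5
    have hB : ∀ (s : ℂ), (s ∉ N ∪ {t | ∃ j, γ t j ∈ Cl g (A ∪ Vt g)}) →
        ∀ y ∈ Cl g (range (γ s)), y ∉ Cl g (A ∪ Vt g) := by
      intro s hs y hy hy'
      refine Cl_disjoint hsym (S := A ∪ Vt g) (T := range (γ s)) ?_ hy' hy
      rintro _ ⟨j, rfl⟩ h
      exact hs (Or.inr ⟨j, h⟩)
    have h2 : ∀ i j l, (g i (a j, a l) = 0 ↔ g i (a' j, a' l) = 0) := by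
      intro i j l
      have h1 := r3 (j + l + 1) t t' htN htN' _ _ (s1 (j + l + 1)) (Sum.inl i)
        (fun x : Fin 2 => if x = 0 then ⟨j, by omega⟩ else ⟨l, by omega⟩)
      simpa [cG] using h1
    have h3 : ∀ i (v : Fin (w i) → ℕ),
        (G i (fun j => a (v j)) = 0 ↔ G i (fun j => a' (v j)) = 0) := by
      intro i v
      have hb : ∀ j, v j < n + (Finset.univ.sup v + 1) := by
        intro j
        have := Finset.le_sup (f := v) (Finset.mem_univ j)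
        omega
      exact r3 (Finset.univ.sup v + 1) t t' htN htN' _ _ (s1 _) (Sum.inr i)
        (fun j => ⟨v j, hb j⟩)
    obtain ⟨σ, p1, p2, p3⟩ := exists_swap hsym hdiag (B0 := Cl g (A ∪ Vt g))
      (fun z hz => subset_Cl (Or.inr hz)) w G a a' s2 s3 h2 h3
      (fun m l h => by
        refine Cl_disjoint hsym (S := range (γ t)) (T := range (γ t')) ?_ (ca m) (h ▸ ca' l)
        rintro _ ⟨j, rfl⟩
        exact hd j)
      (fun m => hB t ht _ (ca m)) (fun m => hB t' ht' _ (ca' m))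
    refine ⟨σ, p1, fun z hz => p2 z (subset_Cl (Or.inl hz)), fun j => ?_⟩
    rw [← (s0 j).1, p3, (s0 j).2]
  refine ⟨N ∪ {t | ∃ j, γ t j ∈ Cl g (A ∪ Vt g)}, hN.union (hpre _ hB0), ?_⟩
  intro t t' ht ht'
  have hcnt : ∀ s, (Cl g (range (γ s))).Countable := fun s => Cl_countable hg (countable_range _)
  obtain ⟨t2, ht2⟩ : ∃ t2, t2 ∉ (N ∪ {t | ∃ j, γ t j ∈ Cl g (A ∪ Vt g)}) ∪
      ({s | ∃ j, γ s j ∈ Cl g (range (γ t))} ∪ {s | ∃ j, γ s j ∈ Cl g (range (γ t'))}) := by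
    by_contra hcon
    push Not at hcon
    apply not_countable_C
    refine ((hN.union (hpre _ hB0)).union ((hpre _ (hcnt t)).union (hpre _ (hcnt t')))).mono ?_
    intro x _
    exact hcon x
  have e1 : t2 ∉ N ∪ {t | ∃ j, γ t j ∈ Cl g (A ∪ Vt g)} := fun h => ht2 (Or.inl h)
  have e2 : ∀ j, γ t2 j ∉ Cl g (range (γ t)) := fun j h => ht2 (Or.inr (Or.inl ⟨j, h⟩))
  have e3 : ∀ j, γ t2 j ∉ Cl g (range (γ t')) := fun j h => ht2 (Or.inr (Or.inr ⟨j, h⟩))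
  obtain ⟨σ, p1, p2, p3⟩ := hdis t t2 ht e1 e2
  obtain ⟨τ, q1, q2, q3⟩ := hdis t2 t' e1 ht' (fun j h => by
    refine Cl_disjoint hsym (S := range (γ t')) (T := range (γ t2)) ?_
      (subset_Cl ⟨j, rfl⟩) h
    rintro _ ⟨l, rfl⟩
    exact e3 l)
  refine ⟨σ.trans τ, p1.trans q1, fun z hz => ?_, fun j => ?_⟩
  · rw [Equiv.trans_apply, p2 z hz, q2 z hz]
  · rw [Equiv.trans_apply, p3, q3]

end

end QR
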