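import Mathlib
import Pool.Agent.Helper16.QR.Orb
import Pool.Agent.Helper16.QR.Defs

/-!
The binary reduct is quasiminimal.
-/

set_option autoImplicit false

open Set Metric Filter Topology
open Pool.Agent.Helper23.QM Pool.Agent.Helper16.QR

namespace QR

/-- the symmetric family with equality -/
def sf (f : ℕ → ℂ × ℂ → ℂ) (n : ℕ) (p : ℂ × ℂ) : ℂ :=
  if n % 4 = 0 then p.1 - p.2 else if n % 4 = 1 then p.2 - p.1 else
  if n % 4 = 2 then f (n / 4) p else f (n / 4) p.swap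

theorem sf0 (f : ℕ → ℂ × ℂ → ℂ) (i : ℕ) (p : ℂ × ℂ) : sf f (4 * i) p = p.1 - p.2 := by
  have h : (4 * i) % 4 = 0 := by omega
  simp [sf, h]

theorem sf1 (f : ℕ → ℂ × ℂ → ℂ) (i : ℕ) (p : ℂ × ℂ) : sf f (4 * i + 1) p = p.2 - p.1 := by
  have h : (4 * i + 1) % 4 = 1 := by omega
  simp [sf, h]

theorem sf2 (f : ℕ → ℂ × ℂ → ℂ) (i : ℕ) (p : ℂ × ℂ) : sf f (4 * i + 2) p = f i p := by
  have h : (4 * i + 2) % 4 = 2 := by omega
  have h' : (4 * i + 2) / 4 = i := by omega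
  simp [sf, h, h']

theorem sf3 (f : ℕ → ℂ × ℂ → ℂ) (i : ℕ) (p : ℂ × ℂ) : sf f (4 * i + 3) p = f i p.swap := by
  have h : (4 * i + 3) % 4 = 3 := by omega
  have h' : (4 * i + 3) / 4 = i := by omega
  simp [sf, h, h']

theorem four_cases (n : ℕ) : ∃ i, n = 4 * i ∨ n = 4 * i + 1 ∨ n = 4 * i + 2 ∨ n = 4 * i + 3 :=
  ⟨n / 4, by omega⟩

theorem fo_sub : FiniteOrder (fun p => p.1 - p.2) := by
  have key : ∀ s t : ℝ, 0 ≤ s → 0 ≤ t → s + t ≤ Real.exp ((1 + s) * (1 + t) ^ 1) := by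
    intro s t hs ht
    have h1 := Real.add_one_le_exp ((1 + s) * (1 + t) ^ 1)
    nlinarith [mul_nonneg hs ht]
  have kmono : ∀ r s t : ℝ, 0 ≤ s → 0 ≤ t → s ≤ r → s + t ≤ Real.exp ((1 + |r|) * (1 + t) ^ 1) := by
    intro r s t hs ht hr
    have h1 := key |r| t (abs_nonneg r) ht
    have h2 := le_abs_self r
    linarith
  refine ⟨fun r => ⟨1 + |r|, 1, fun x y hx => ?_⟩, fun r => ⟨1 + |r|, 1, fun x y hy => ?_⟩⟩
  · exact (norm_sub_le x y).trans (kmono r _ _ (norm_nonneg x) (norm_nonneg y) hx)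
  · have h1 := kmono r _ _ (norm_nonneg y) (norm_nonneg x) hy
    have h2 := norm_sub_le x y
    change ‖x - y‖ ≤ _
    linarith

theorem fo_sub' : FiniteOrder (fun p => p.2 - p.1) := by
  have h := fo_sub.swap
  exact h

theorem analytic_swap : AnalyticOnNhd ℂ (Prod.swap : ℂ × ℂ → ℂ × ℂ) univ :=
  fun _ _ => analyticAt_snd.prod analyticAt_fst

section

variable {f : ℕ → ℂ × ℂ → ℂ} (hf : ∀ i, AnalyticOnNhd ℂ (f i) univ) (hfo : ∀ i, FiniteOrderEach (f i))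

include hf in
theorem sf_an (n : ℕ) : AnalyticOnNhd ℂ (sf f n) univ := by
  obtain ⟨i, rfl | rfl | rfl | rfl⟩ := four_cases n
  · have h : sf f (4 * i) = fun p => p.1 - p.2 := funext (sf0 f i)
    rw [h]
    exact fun p _ => analyticAt_fst.sub analyticAt_snd
  · have h : sf f (4 * i + 1) = fun p => p.2 - p.1 := funext (sf1 f i)
    rw [h]
    exact fun p _ => analyticAt_snd.sub analyticAt_fst
  · have h : sf f (4 * i + 2) = f i := funext (sf2 f i)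
    rw [h]
    exact hf i
  · have h : sf f (4 * i + 3) = fun p => f i p.swap := funext (sf3 f i)
    rw [h]
    exact fun p _ => AnalyticAt.comp (g := f i) (hf i _ (mem_univ _)) (analytic_swap p (mem_univ _))

include hfo in
theorem sf_fo (n : ℕ) : FiniteOrder (sf f n) := by
  obtain ⟨i, rfl | rfl | rfl | rfl⟩ := four_cases n
  · have h : sf f (4 * i) = fun p => p.1 - p.2 := funext (sf0 f i)
    rw [h]
    exact fo_sub
  · have h : sf f (4 * i + 1) = fun p => p.2 - p.1 := funext (sf1 f i)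
    rw [h]
    exact fo_sub'
  · have h : sf f (4 * i + 2) = f i := funext (sf2 f i)
    rw [h]
    exact hfo i
  · have h : sf f (4 * i + 3) = fun p => f i p.swap := funext (sf3 f i)
    rw [h]
    exact FiniteOrder.swap (hfo i)

theorem sf_sym (i : ℕ) : ∃ j, ∀ x y, sf f j (x, y) = sf f i (y, x) := by
  obtain ⟨i, rfl | rfl | rfl | rfl⟩ := four_cases i
  · exact ⟨4 * i + 1, fun x y => by rw [sf0, sf1]⟩
  · exact ⟨4 * i, fun x y => by rw [sf0, sf1]⟩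
  · exact ⟨4 * i + 3, fun x y => by rw [sf2, sf3]; rfl⟩
  · exact ⟨4 * i + 2, fun x y => by rw [sf2, sf3]; rfl⟩

theorem sf_diag : ∃ i, ∀ x y, sf f i (x, y) = x - y := ⟨4 * 0, fun x y => sf0 f 0 (x, y)⟩

theorem lk_sf {x y : ℂ} : Lk (sf f) x y ↔ (x = y ∨ Linked f x y ∨ Linked f y x) := by
  constructor
  · rintro ⟨n, h1, h2, h3⟩
    obtain ⟨i, rfl | rfl | rfl | rfl⟩ := four_cases n
    · rw [sf0] at h3
      exact Or.inl (sub_eq_zero.mp h3)
    · rw [sf1] at h3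
      exact Or.inl (sub_eq_zero.mp h3).symm
    · simp only [sf2] at h1 h2 h3
      exact Or.inr (Or.inl ⟨i, h3, h1, h2⟩)
    · simp only [sf3, Prod.swap_prod_mk] at h1 h2 h3
      exact Or.inr (Or.inr ⟨i, h3, h2, h1⟩)
  · rintro (rfl | ⟨i, h3, h1, h2⟩ | ⟨i, h3, h1, h2⟩)
    · exact Lk.refl sf_diag x
    · exact ⟨4 * i + 2, by simpa only [sf2] using h1, by simpa only [sf2] using h2,
        by rw [sf2]; exact h3⟩
    · refine ⟨4 * i + 3, ?_, ?_, ?_⟩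
      · simpa only [sf3, Prod.swap_prod_mk] using h2
      · simpa only [sf3, Prod.swap_prod_mk] using h1
      · rw [sf3]; exact h3

theorem lt_sf {k : ℕ} (v : Fin k → ℂ) : LT (sf f) v ↔ LinkedTuple f v := by
  constructor
  · intro h j hj
    obtain ⟨l, hl, hL⟩ := h j hj
    exact ⟨l, hl, lk_sf.mp hL⟩
  · intro h j hj
    obtain ⟨l, hl, hL⟩ := h j hj
    exact ⟨l, hl, lk_sf.mpr hL⟩

theorem pres_isAut {w : ℕ → ℕ} {G : ∀ i, (Fin (w i) → ℂ) → ℂ} {σ : Equiv.Perm ℂ}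
    (h : Pres (sf f) w G σ) : IsAut f w G σ := by
  refine ⟨fun i x y => ?_, fun i v hv => h.2 i v ((lt_sf v).mpr hv)⟩
  have h1 := h.1 (4 * i + 2) x y
  rwa [sf2, sf2] at h1

include hf hfo in
theorem orbit {w : ℕ → ℕ} {G : ∀ i, (Fin (w i) → ℂ) → ℂ} (hG : ∀ i, AnalyticOnNhd ℂ (G i) univ)
    {A : Set ℂ} (hA : A.Countable) {n : ℕ} (γ : ℂ → Fin n → ℂ) (hγ : AnalyticOnNhd ℂ γ univ) :
    ∃ N : Set ℂ, N.Countable ∧ ∀ t t', t ∉ N → t' ∉ N → ∃ σ : Equiv.Perm ℂ, IsAut f w G σ ∧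
      (∀ z ∈ A, σ z = z) ∧ ∀ j, σ (γ t j) = γ t' j := by
  classical
  let J := {j : Fin n // ∃ t, γ t j ≠ γ 0 j}
  let m := Fintype.card J
  let e : Fin m ≃ J := (Fintype.equivFin J).symm
  rcases Nat.eq_zero_or_pos m with hm | hm
  · refine ⟨∅, countable_empty, fun t t' _ _ => ⟨Equiv.refl ℂ, ⟨fun _ _ _ => Iff.rfl,
      fun _ _ _ => Iff.rfl⟩, fun _ _ => rfl, fun j => ?_⟩⟩
    have hJ : IsEmpty J := Fintype.card_eq_zero_iff.mp hm
    have h1 : ∀ s, γ s j = γ 0 j := by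
      intro s
      by_contra hcon
      exact hJ.elim ⟨j, s, hcon⟩
    exact (h1 t).trans (h1 t').symm
  · let γ' : ℂ → Fin m → ℂ := fun t j => γ t (e j).1
    have hγ' : AnalyticOnNhd ℂ γ' univ := by
      intro t _
      rw [analyticAt_pi_iff]
      intro j
      exact (analytic_coord (e j).1 _ (mem_univ _)).comp (hγ t (mem_univ _))
    have hA' : (A ∪ range (γ 0)).Countable := hA.union (countable_range _)
    obtain ⟨N, hN, h⟩ := core (g := sf f) (sf_an hf) (sf_fo hfo) sf_sym sf_diag hm γ' hγ'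
      (fun j => (e j).2) hA' w G hG
    refine ⟨N, hN, fun t t' ht ht' => ?_⟩
    obtain ⟨σ, h1, h2, h3⟩ := h t t' ht ht'
    refine ⟨σ, pres_isAut h1, fun z hz => h2 z (Or.inl hz), fun j => ?_⟩
    by_cases hj : ∃ s, γ s j ≠ γ 0 j
    · have h4 := h3 (e.symm ⟨j, hj⟩)
      simp only [γ', Equiv.apply_symm_apply] at h4
      exact h4
    · push Not at hj
      rw [hj t, hj t']
      exact h2 _ (Or.inr ⟨j, rfl⟩)

include hf hfo in
theorem dichotomy {w : ℕ → ℕ} {G : ∀ i, (Fin (w i) → ℂ) → ℂ}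
    (hG : ∀ i, AnalyticOnNhd ℂ (G i) univ) {A : Set ℂ} (hA : A.Countable) {n : ℕ}
    {S : Set (Fin n → ℂ)} (hS : ∀ σ : Equiv.Perm ℂ, IsAut f w G σ → (∀ a ∈ A, σ a = a) →
      ∀ v, v ∈ S ↔ (fun j => σ (v j)) ∈ S) (γ : ℂ → Fin n → ℂ) (hγ : AnalyticOnNhd ℂ γ univ) :
    {t | γ t ∈ S}.Countable ∨ {t | γ t ∉ S}.Countable := by
  obtain ⟨N, hN, h⟩ := orbit hf hfo hG hA γ hγ
  by_cases h1 : ∃ t, t ∉ N ∧ γ t ∈ S
  · right
    obtain ⟨t, ht, htS⟩ := h1
    refine hN.mono ?_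
    intro t' ht'
    by_contra hcon
    obtain ⟨σ, p1, p2, p3⟩ := h t t' ht hcon
    have h2 := (hS σ p1 p2 (γ t)).mp htS
    have h3 : (fun j => σ (γ t j)) = γ t' := funext p3
    rw [h3] at h2
    exact ht' h2
  · left
    push Not at h1
    refine hN.mono ?_
    intro t ht
    by_contra hcon
    exact h1 t hcon ht

end

end QR
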